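import Pool.Agent.Helper6.CS.Goals1

/-!
# Project CS (MP_81e84b_lc): packet CL0
-/

namespace Pool.Agent.Helper50.CS

open Pool.Agent.Helper6.CS

set_option synthInstance.maxSize 1000000000

theorem t_CL0 : G_CL0 := by
  intro M _ b p D _ hD Λ
  obtain ⟨y, hy, hy2⟩ := hD Λ
  obtain ⟨e, he⟩ := ev_exists (M := M) (fun _ : M => (Cod.cd y : M)) ((Cod.cd (Wd.nil M) : M) + 1)
  have hap : apw e (Wd.nil M) = y := by
    unfold apw
    rw [he _ ((World.lt_succ _ _).2 le_rfl), dec_cd]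
  have hnil : ∀ β : Wd M, β.len ≤ 0 → β = Wd.nil M := fun β hβ =>
    Wd.eq_nil_of_len (le_antisymm hβ (World.zero_le' _))
  refine ⟨e, ?_, ?_, ?_, ?_⟩
  · intro β _ hβ
    rw [hnil β hβ, hap]
    exact hy
  · intro g β hg hgl _ hβ
    rw [hnil β hβ, hap]
    exact hy2 g hg hgl
  · intro α σ τ _ _ _ _ hlen
    exfalso
    have h1 : τ.len + 1 ≤ 0 := le_trans (le_add_of_nonneg_left (World.zero_le' _)) hlen
    have h2 : τ.len < τ.len + 1 := (World.lt_succ _ _).2 le_rfl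
    exact absurd (lt_of_lt_of_le h2 h1) (not_lt.2 (World.zero_le' _))
  · intro s u τ _ _ _ _ _ _ hτ hi
    obtain ⟨i, hi, _⟩ := hi
    exact absurd (lt_of_lt_of_le hi hτ) (not_lt.2 (World.zero_le' _))

end Pool.Agent.Helper50.CS
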